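import Pool.Agent.Helper5.FRB.Budget

/-!
Perfect matchings of a cubic graph that avoid a cheap set of edges, in particular the common edges
of given perfect matchings `M_1, ..., M_k` (`k = 2`: Fan-Raspaud triples).

Idea of the proof. Give the edge `e` the weight `2 * q` plus the sum of the `c_i` over all `i` with
`e` not in `M_i`. All vertices have the same weight `6 * q + 2 * ∑ c_i`, and by the hypothesis and
parity every odd cut has at least this weight. If all perfect matchings met `J`, Tutte's theorem
would give a set `T` and at least `|T| + 2` odd components, and counting weights of cuts gives that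
the weight of `J` is at least the weight of a vertex.
-/

set_option autoImplicit false

namespace Pool.Agent.Results.MP_79b960_co.CutBudget

open scoped Classical in
/-- Let `G` be a finite cubic simple graph, `M_1, ..., M_k` perfect matchings of `G` and
`q, c_1, ..., c_k` natural numbers such that for every set `K` of an odd number of vertices `3 * q`
plus the sum of the `c_i` over all `i` such that all edges leaving `K` are in `M_i` is at most `q`
times the number of edges leaving `K`. Let `J` be a finite set of (possible) edges such that
`2 * q * |J| + ∑ c_i * |J \ M_i| < 6 * q + 2 * ∑ c_i`. Then `G` has a perfect matching without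
edges in `J`. -/
theorem result :
    ∀ (V : Type) [Fintype V] [DecidableEq V] (G : SimpleGraph V) [DecidableRel G.Adj],
      G.IsRegularOfDegree 3 →
      ∀ (k : ℕ) (M : Fin k → G.Subgraph) (q : ℕ) (c : Fin k → ℕ),
        (∀ i, (M i).IsPerfectMatching) →
        (∀ K : Finset V, Odd K.card →
          3 * q + ∑ i with (∀ x ∈ K, ∀ y ∉ K, G.Adj x y → (M i).Adj x y), c i ≤
            q * ((K ×ˢ Kᶜ).filter fun p => G.Adj p.1 p.2).card) →
        ∀ J : Finset (Sym2 V),
          2 * q * J.card + ∑ i, c i * (J.filter fun e => e ∉ (M i).edgeSet).card <
            6 * q + 2 * ∑ i, c i →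
          ∃ N : G.Subgraph, N.IsPerfectMatching ∧ ∀ e ∈ J, e ∉ N.edgeSet := by
  intro V _ _ G _ hG k M q c hM hcut J hJ
  exact Pool.Agent.Helper5.FRB.budget G hG k M q c hM hcut J hJ

end Pool.Agent.Results.MP_79b960_co.CutBudget
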