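import Mathlib
import Pool.Agent.Helper39.FR.COMP
import Pool.Agent.Helper89.FR.TUT
import Pool.Agent.Helper30.FR.IDF
import Pool.Agent.Helper51.FR.SKF
import Pool.Agent.Helper81.FR.IDM
import Pool.Agent.Helper96.FR.CUT
import Pool.Agent.Helper26.FR.FIT
import Pool.Agent.Helper55.FR.UNS
import Pool.Agent.Helper93.FR.UNB
import Pool.Agent.Helper83.FR.ZBD
import Pool.Agent.Helper32.FR.DIF
import Pool.Agent.Helper62.FR.PRB
import Pool.Agent.Helper40.FR.CONR
import Pool.Agent.Helper58.FR.ORI
import Pool.Agent.Helper46.FR.IFX
import Pool.Agent.Helper55.FR.XR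
import Pool.Agent.Helper38.FRX.BARC
import Pool.Agent.Helper38.FRX.LOCBC
import Pool.Agent.Helper38.FRX.MAINC
import Pool.Agent.Helper38.FRX.FINC
import Pool.Agent.Helper46.FRX.VMB
import Pool.Agent.Helper46.FRX.CUTC
import Pool.Agent.Helper88.FRX.LOCNC
import Pool.Agent.Helper88.FRX.CNTC
import Pool.Agent.Helper59.FRX.GLONC
import Pool.Agent.Helper57.FRX.GEXC
import Pool.Agent.Helper39.FRX.TRE
import Pool.Agent.Helper39.FRX.RTR
import Pool.Agent.Helper71.FRX.CHP
import Pool.Agent.Helper26.FRX.PRT
import Pool.Agent.Helper76.FRX.TCHC
import Pool.Agent.Helper70.FRX.SUBC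
import Pool.Agent.Helper2.FRX.ENC
import Pool.Agent.Helper32.FRX.AVG
import Pool.Agent.Helper32.FRX.SMGC
import Pool.Agent.Helper98.FRX.NUMC
import Pool.Agent.Helper13.FRX.SMLC
import Pool.Agent.Helper40.FRX.CYC

/-!
The Fan-Raspaud conjecture for cubic graphs in which the light cuts separating two cycles have at
least `10 ^ 5 * r * (1 + log (r / h))` edges, `h` the edge expansion, in the strong form that the
given perfect matching `M` belongs to a family `M, N_1, ..., N_r` of perfect matchings such that no
edge lies in `M`, in `N_i` and in `N_j` for `i` different from `j`.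

Idea of the proof. Let `F` be the 2-factor complementary to `M`. It suffices to colour the edges of
`M` with `r` colours so that `F` together with any colour class has a perfect matching. If
`F ∪ B` has none, take a Tutte barrier `T` all of whose components are odd; degree counting in `F`
shows that at least half of the large components have at most two edges of `F` leaving, so many
edges of `M` leave them, and degree counting in `M` shows that the edges of `M` between different
components (none of them is in `B`) are many compared with the numbers of special edges which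
describe the barrier. The barriers are counted with the help of a spanning tree of the graph which
consists of edges of `F` and of few edges of `M` and which is cheap on average for the whole family of
barriers to be counted; the tree is cut into connected parts, and a barrier is described by the parts
it meets and by the edges of the tree in which it is special. A random colouring, in the form of
Rosenfeld's counting argument, avoids all of them.
-/

set_option autoImplicit false

namespace Pool.Agent.Results.MP_79b960_co.LightCuts

open Pool.Agent.Helper55.FR Pool.Agent.Helper38.FRX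

/-- Let `0 < h ≤ 1`, `r ≥ 1` and `10 ^ 5 * r * (1 + log (r / h)) ≤ lam`. Let `G` be a finite cubic
graph in which at least `h * |S|` edges leave every set `S` of at most half of the vertices, and let
`M` be a perfect matching of `G` such that at least `lam` edges leave every set `S` for which the
graphs induced on `S` and on its complement both contain a cycle and at most two edges of `G` outside
`M` leave `S`. Then there are perfect matchings `N_1, ..., N_r` of `G` such that no edge belongs to
`M`, `N_i` and `N_j` for `i ≠ j`. -/
theorem result :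
    ∀ (h lam : ℝ) (r : ℕ), 0 < h → h ≤ 1 → 1 ≤ r →
      10 ^ 5 * (r : ℝ) * (1 + Real.log (r / h)) ≤ lam →
      ∀ (V : Type) [Fintype V] [DecidableEq V] (G : SimpleGraph V) [DecidableRel G.Adj],
        G.IsRegularOfDegree 3 →
        (∀ S : Finset V, 2 * S.card ≤ Fintype.card V →
          h * S.card ≤ ((S ×ˢ Sᶜ).filter fun p => G.Adj p.1 p.2).card) →
        ∀ (M : G.Subgraph) [DecidableRel M.Adj], M.IsPerfectMatching →
          (∀ S : Finset V, ¬ (G.induce (S : Set V)).IsAcyclic →
            ¬ (G.induce ((Sᶜ : Finset V) : Set V)).IsAcyclic →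
            ((S ×ˢ Sᶜ).filter fun p => G.Adj p.1 p.2 ∧ ¬ M.Adj p.1 p.2).card ≤ 2 →
              lam ≤ ((S ×ˢ Sᶜ).filter fun p => G.Adj p.1 p.2).card) →
          ∃ N : Fin r → G.Subgraph, (∀ i, (N i).IsPerfectMatching) ∧
            ∀ i j, i ≠ j → ∀ e : Sym2 V,
              ¬ (e ∈ M.edgeSet ∧ e ∈ (N i).edgeSet ∧ e ∈ (N j).edgeSet) := by
  have hidf := Pool.Agent.Helper30.FR.idf
  have hskf := Pool.Agent.Helper51.FR.skf
  have hidm := Pool.Agent.Helper81.FR.idm
  have hcut := Pool.Agent.Helper96.FR.cut
  have hfit := Pool.Agent.Helper26.FR.fit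
  have hvmb : VmbStmt := Pool.Agent.Helper46.FRX.vmb
  have hglon : GloncStmt := Pool.Agent.Helper59.FRX.glonc hidf hskf hidm hcut hfit
  have hlocn : LocncStmt := Pool.Agent.Helper88.FRX.locnc hidf hskf hidm hcut hfit hvmb
  have hcomp : CompStmt := Pool.Agent.Helper39.FR.comp
  have htut : TutStmt := Pool.Agent.Helper89.FR.tut
  have hbar : BarcStmt := barc hcomp htut
  have hlocb : LocbcStmt := locbc hidf hcut
  have hunb : UnbStmt := Pool.Agent.Helper93.FR.unb uns
  have hgex : GexcStmt := Pool.Agent.Helper57.FRX.gexc hunb hglon ref Pool.Agent.Helper32.FR.dif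
  have hprt : PrtStmt := Pool.Agent.Helper26.FRX.prt Pool.Agent.Helper39.FRX.rtr
    Pool.Agent.Helper71.FRX.chp
  have henc : EncStmt := Pool.Agent.Helper2.FRX.enc Pool.Agent.Helper70.FRX.subc
  have hcnt : CntcStmt := Pool.Agent.Helper88.FRX.cntc hprt henc Pool.Agent.Helper76.FRX.tchc
    Pool.Agent.Helper46.FRX.cutc Pool.Agent.Helper40.FR.con
  have havg : AvgStmt := Pool.Agent.Helper32.FRX.avg Pool.Agent.Helper39.FRX.tre hcnt
  have hsml : SmlcStmt := Pool.Agent.Helper13.FRX.smlc havg xr
  have hsmg : SmgcStmt := Pool.Agent.Helper32.FRX.smgc havg hvmb xr Pool.Agent.Helper83.FR.zbd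
  have hmain : MaincStmt := mainc hbar hlocb hlocn hglon hgex ref hvmb
    Pool.Agent.Helper98.FRX.numc hsml hsmg Pool.Agent.Helper62.FR.prb
  exact finc hmain Pool.Agent.Helper58.FR.ori Pool.Agent.Helper46.FR.ifx
    Pool.Agent.Helper40.FRX.cyc

end Pool.Agent.Results.MP_79b960_co.LightCuts
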