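import Pool.Agent.Helper5.FRB.CertFinal

/-!
Two perfect matchings `M₁`, `M₂` of a cubic graph without a third one that has no edge in common
with both of them: there is a certificate, a family of pairwise disjoint odd sets of vertices, each
of them left only by edges of `M₁` or only by edges of `M₂`, with few leaving edges and many odd
components of `G - (M₁ ∪ M₂)` outside.

Idea of the proof. Tutte's theorem for the graph without the common edges gives a set `T` and a
family of more than `|T|` odd components. The edges outside `M₁` form a 2-regular graph; counting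
those between `T` and the family gives the first inequality. For the second one take a matching of
edges outside `M₁ ∪ M₂` that leaves one vertex unmatched in every odd component of
`G - (M₁ ∪ M₂)` and covers all other vertices incident with such edges, and count only the
edges outside `M₁` which are not in this matching: every vertex of `T`, unless it is unmatched, has
only one of them, and by parity every member of the family has such an edge or an unmatched
vertex. The same for `M₂`.
-/

set_option autoImplicit false

namespace Pool.Agent.Results.MP_79b960_co.OddSetCertificate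

open Finset

open scoped Classical in
/-- The number of edges of `G` leaving `K` which are not in `M`. -/
noncomputable def outside {V : Type} [Fintype V] [DecidableEq V] (G : SimpleGraph V)
    (M : G.Subgraph) (K : Finset V) : ℕ :=
  ((K ×ˢ Kᶜ).filter fun p => G.Adj p.1 p.2 ∧ ¬ M.Adj p.1 p.2).card

/-- The number of components with an odd number of vertices of `G - (M₁ ∪ M₂)` which are contained
in `K`. -/
noncomputable def oddParts {V : Type} (G : SimpleGraph V) (M₁ M₂ : G.Subgraph) (K : Set V) : ℕ :=
  {C : (G.deleteEdges (M₁.edgeSet ∪ M₂.edgeSet)).ConnectedComponent |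
    Odd C.supp.ncard ∧ C.supp ⊆ K}.ncard

/-- Let `M₁`, `M₂` be perfect matchings of the finite cubic simple graph `G`. There is a perfect
matching `M₃` such that no edge is in `M₁`, `M₂` and `M₃`, or there is a set `Q` of pairwise disjoint
sets of vertices, such that for `K ∈ Q` the number of elements of `K` is odd and all edges leaving
`K` are in `M₁` or all of them are in `M₂`, and for `M = M₁` and for `M = M₂` the sum over all
`K ∈ Q` of the number of leaving edges outside `M` is at most `2 |Q| - 4`, and the sum over all
`K ∈ Q` of the number of leaving edges outside `M` plus the number of odd components of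
`G - (M₁ ∪ M₂)` in `K` minus one is at most the number of all odd components of `G - (M₁ ∪ M₂)`
minus two. -/
theorem result :
    ∀ (V : Type) [Fintype V] [DecidableEq V] (G : SimpleGraph V) [DecidableRel G.Adj],
      G.IsRegularOfDegree 3 →
      ∀ M₁ M₂ : G.Subgraph, M₁.IsPerfectMatching → M₂.IsPerfectMatching →
        (∃ M₃ : G.Subgraph, M₃.IsPerfectMatching ∧
          ∀ e, ¬ (e ∈ M₁.edgeSet ∧ e ∈ M₂.edgeSet ∧ e ∈ M₃.edgeSet)) ∨
        ∃ Q : Finset (Finset V),
          (∀ K ∈ Q, Odd K.card ∧ ((∀ x ∈ K, ∀ y ∉ K, G.Adj x y → M₁.Adj x y) ∨
            ∀ x ∈ K, ∀ y ∉ K, G.Adj x y → M₂.Adj x y)) ∧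
          (∀ K ∈ Q, ∀ K' ∈ Q, K ≠ K' → Disjoint K K') ∧
          ∀ M : G.Subgraph, (M = M₁ ∨ M = M₂) →
            4 + ∑ K ∈ Q, outside G M K ≤ 2 * Q.card ∧
            2 + ∑ K ∈ Q, (outside G M K + oddParts G M₁ M₂ K) ≤
              oddParts G M₁ M₂ Set.univ + Q.card := by
  intro V _ _ G _ hG M₁ M₂ h₁ h₂
  by_cases h : ∃ M₃ : G.Subgraph, M₃.IsPerfectMatching ∧
      ∀ e, ¬ (e ∈ M₁.edgeSet ∧ e ∈ M₂.edgeSet ∧ e ∈ M₃.edgeSet)
  · exact Or.inl h
  · obtain ⟨Q, hQ1, hQ2, hQ3⟩ := Pool.Agent.Helper5.FRB.certificate G hG M₁ M₂ h₁ h₂ h
    refine Or.inr ⟨Q, hQ1, hQ2, fun M hM => ?_⟩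
    have ho : ∀ K : Finset V, Pool.Agent.Helper5.FRB.cutN G (fun x y => ¬ M.Adj x y) K =
        outside G M K := by
      intro K
      classical
      unfold outside
      rw [Pool.Agent.Helper5.FRB.cutN_card]
      congr!
    have hu : oddParts G M₁ M₂ Set.univ =
        {C : (G.deleteEdges (M₁.edgeSet ∪ M₂.edgeSet)).ConnectedComponent |
          Odd C.supp.ncard}.ncard := by
      unfold oddParts
      congr 1
      ext C
      simp
    have h3 := hQ3 M hM
    simp only [ho] at h3
    rw [hu]
    exact h3

end Pool.Agent.Results.MP_79b960_co.OddSetCertificate
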