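import Pool.Agent.Helper5.FRC.MainG
import Pool.Agent.Helper5.FRD.Main
import Pool.Agent.Helper58.FR.ORI
import Pool.Agent.Helper46.FR.IFX
import Pool.Agent.Helper9.FRC.NPR
import Pool.Agent.Helper9.FRC.DISG
import Pool.Agent.Helper34.FRC.SHIFT
import Pool.Agent.Helper83.FRC.TWIST
import Pool.Agent.Helper57.FRC.PATH
import Pool.Agent.Helper81.FRC.SLIDE
import Pool.Agent.Helper84.FRC.SUBM
import Pool.Agent.Helper33.FRC.CLOSE
import Pool.Agent.Helper16.FRC.EVENP
import Pool.Agent.Helper85.FRC.EXTG
import Pool.Agent.Helper71.FRC.TWO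
import Pool.Agent.Helper67.FRC.PAIR
import Pool.Agent.Helper2.FRC.STAR
import Pool.Agent.Helper59.FRC.FOUR
import Pool.Agent.Helper44.FRC.INDG
import Pool.Agent.Helper77.FRC.ENDF
import Pool.Agent.Helper78.FRC.CMP
import Pool.Agent.Helper34.FRD.CLOSEH
import Pool.Agent.Helper99.FRD.DISGH
import Pool.Agent.Helper35.FRD.EXTH
import Pool.Agent.Helper39.FRD.ENDH
import Pool.Agent.Helper4.FRD.ARCQ
import Pool.Agent.Helper66.FRD.COMP
import Pool.Agent.Helper47.FRD.DICH
import Pool.Agent.Helper44.FRD.UNIQ
import Pool.Agent.Helper91.FRD.MARK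
import Pool.Agent.Helper62.FRD.CHAIN
import Pool.Agent.Helper13.FRD.FIN
import Pool.Agent.Helper14.FRD.PMF
import Pool.Agent.Helper23.FRD.PMH
import Pool.Agent.Helper46.FRD.ARCF
import Pool.Agent.Helper78.FRD.DESC
import Pool.Agent.Helper57.FRD.LOOP
import Pool.Agent.Helper12.FRD.RTAIL
import Pool.Agent.Helper75.FRD.STARB
import Pool.Agent.Helper26.FRD.STARC1
import Pool.Agent.Helper72.FRD.STARC2
import Pool.Agent.Helper2.FRD.STARH
import Pool.Agent.Helper41.FRD.FOURH
import Pool.Agent.Helper96.FRD.TWOH
import Pool.Agent.Helper81.FRD.INDH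

/-!
The Fan-Raspaud conjecture for cubic graphs with a 2-factor which has at most four odd circuits and
whose even circuits, except one of arbitrary length, are short compared with the odd cuts contained
in the complementary perfect matching. For cyclically 4-edge-connected graphs: at most four odd
circuits, one even circuit of arbitrary length, and any number of even circuits of length 4.

Idea of the proof. Let `M` be the perfect matching complementary to the 2-factor. An even circuit
other than the exceptional one is removed: its vertices are paired along one of its two perfect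
matchings and the matching edges at paired vertices are joined. Uncrossing shows that for one of the
two pairings the odd cuts in the matching stay large enough. At the end four odd circuits and the
exceptional even circuit `Z` are left. Removing `Z` with any pairing joins the odd circuits either in
two pairs or in a star. In the second case a minimal arc of `Z`, on which the pairing is shifted, or a
sliding argument on the centre of the star gives a second perfect matching `M₂` such that
`M ∩ M₂` contains no odd cut and `G - (M ∪ M₂)` has at most six odd components, suitably placed.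
By the theorem on two perfect matchings (see `OddSetCertificate`) there is a third one.
-/

set_option autoImplicit false

namespace Pool.Agent.Results.MP_79b960_co.OneLongCircuit

/-- Let `M` be a perfect matching of the finite cubic simple graph `G` such that `G - M` has at most
four odd circuits, and let `D` be empty or a set of one circuit of `G - M`. Assume for every set `K`
of an odd number of vertices which is left only by edges of `M`, that the number of these edges is at
least `3 + 2 |D|` plus twice the sum of `⌊(|C| - 2) / 4⌋` over the even circuits `C` of `G - M` not in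
`D` (it suffices to say: over any set of them). Then there are perfect matchings `N₁`, `N₂` such that
no edge is in `M`, `N₁` and `N₂`. -/
theorem result :
    ∀ (V : Type) [Fintype V] [DecidableEq V] (G : SimpleGraph V) [DecidableRel G.Adj],
      G.IsRegularOfDegree 3 →
      ∀ M : G.Subgraph, M.IsPerfectMatching →
        {C : (G.deleteEdges M.edgeSet).ConnectedComponent | Odd C.supp.ncard}.ncard ≤ 4 →
        ∀ D : Finset (G.deleteEdges M.edgeSet).ConnectedComponent, D.card ≤ 1 →
        (∀ K : Finset V, Odd K.card → (∀ x ∈ K, ∀ y ∉ K, G.Adj x y → M.Adj x y) →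
          ∀ F : Finset (G.deleteEdges M.edgeSet).ConnectedComponent,
            (∀ C ∈ F, Even C.supp.ncard ∧ C ∉ D) →
            3 + 2 * D.card + 2 * ∑ C ∈ F, (C.supp.ncard - 2) / 4 ≤
              ((K ×ˢ Kᶜ).filter fun p => G.Adj p.1 p.2).card) →
        ∃ N₁ N₂ : G.Subgraph, N₁.IsPerfectMatching ∧ N₂.IsPerfectMatching ∧
          ∀ e : Sym2 V, ¬ (e ∈ M.edgeSet ∧ e ∈ N₁.edgeSet ∧ e ∈ N₂.edgeSet) := by
  have hnpr := Pool.Agent.Helper9.FRC.NPR.t
  have hsubm := Pool.Agent.Helper84.FRC.SUBM.t
  have hevenp := Pool.Agent.Helper16.FRC.EVENP.t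
  have hslide := Pool.Agent.Helper81.FRC.SLIDE.t hnpr Pool.Agent.Helper34.FRC.SHIFT.t
    Pool.Agent.Helper83.FRC.TWIST.t Pool.Agent.Helper57.FRC.PATH.t
  have hfour := Pool.Agent.Helper59.FRC.FOUR.t (Pool.Agent.Helper67.FRC.PAIR.t hnpr)
    (Pool.Agent.Helper2.FRC.STAR.t hnpr hslide)
  have hdisg := Pool.Agent.Helper9.FRC.DISG.t hsubm Pool.Agent.Helper33.FRC.CLOSE.t hevenp
  have hind := Pool.Agent.Helper44.FRC.INDG.t hdisg Pool.Agent.Helper85.FRC.EXTG.t
    (Pool.Agent.Helper71.FRC.TWO.t hnpr) hfour
  have hG := Pool.Agent.Helper5.FRC.mainG Pool.Agent.Helper58.FR.ori Pool.Agent.Helper46.FR.ifx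
    Pool.Agent.Helper78.FRC.CMP.t hind Pool.Agent.Helper77.FRC.ENDF.t
  have hcloseh := Pool.Agent.Helper34.FRD.CLOSEH.t
  have hdisgh := Pool.Agent.Helper99.FRD.DISGH.t hsubm hcloseh hevenp
  have hcomp := Pool.Agent.Helper66.FRD.COMP.t Pool.Agent.Helper57.FRC.PATH.t
  have hdich := Pool.Agent.Helper47.FRD.DICH.t hcomp
  have huniq := Pool.Agent.Helper44.FRD.UNIQ.t hcomp
  have hmark := Pool.Agent.Helper91.FRD.MARK.t hdich huniq
  have hchain := Pool.Agent.Helper62.FRD.CHAIN.t hcomp
  have harcq := Pool.Agent.Helper4.FRD.ARCQ.t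
  have hfin := Pool.Agent.Helper13.FRD.FIN.t
  have hpmf := Pool.Agent.Helper14.FRD.PMF.t hnpr hfin
  have hpmh := Pool.Agent.Helper23.FRD.PMH.t hpmf hchain
  have harcf := Pool.Agent.Helper46.FRD.ARCF.t harcq hpmf
  have hdesc := Pool.Agent.Helper78.FRD.DESC.t harcq hdich huniq hchain hsubm
  have hloop := Pool.Agent.Helper57.FRD.LOOP.t harcq hmark hchain hdesc harcf
  have hrtail := Pool.Agent.Helper12.FRD.RTAIL.t harcq hmark hchain
  have hstarb := Pool.Agent.Helper75.FRD.STARB.t hnpr hslide hchain hfin hsubm
  have hstarc1 := Pool.Agent.Helper26.FRD.STARC1.t hrtail hchain hpmf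
  have hstarc2 := Pool.Agent.Helper72.FRD.STARC2.t hnpr hslide hrtail hchain hfin hsubm
  have hstarh := Pool.Agent.Helper2.FRD.STARH.t hloop hstarb hstarc1 hstarc2 hchain hsubm
  have hfourh := Pool.Agent.Helper41.FRD.FOURH.t hpmh hstarh hcloseh hevenp hsubm
  have htwoh := Pool.Agent.Helper96.FRD.TWOH.t hnpr hevenp hcloseh hchain hsubm
  have hindh := Pool.Agent.Helper81.FRD.INDH.t hdisgh Pool.Agent.Helper35.FRD.EXTH.t hfourh htwoh
    hevenp
  exact Pool.Agent.Helper5.FRD.mainH Pool.Agent.Helper58.FR.ori Pool.Agent.Helper46.FR.ifx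
    Pool.Agent.Helper78.FRC.CMP.t hG hindh Pool.Agent.Helper39.FRD.ENDH.t

end Pool.Agent.Results.MP_79b960_co.OneLongCircuit
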